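import Pool.Agent.H26.NO.Targets

/-!
Board nok_modules (MP_0cd084_nt), row LB: the lower bound in all intervals of length `x`.
-/

set_option autoImplicit false

open Finset

namespace Pool.Agent.H26.NOK

open Pool.Agent.H73.NK (SPM fm)
open Pool.Agent.H26.NO

/-- the arithmetic of the final estimate -/
theorem lb_final (c1 G s : ℝ) (hc : 0 < c1) (hs : 1 ≤ s) (hsG : 1000 * G ≤ s)
    (hG1 : 1000 * (100 / c1 ^ 2 + 100) ≤ G) (hs4 : s ^ 4 ≤ Real.exp (G / 1000)) :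
    4 * Real.exp (s ^ 2) * ((s / c1) ^ 2 * (12 * s ^ 2 * Real.exp (-s) +
      2 * (3 + 2 * s ^ 2) * Real.exp (-(G / 40)))) + 16 * Real.exp (4 * s ^ 2 / 15) +
      16 * Real.exp (2 * s ^ 2 / 15) + Real.exp (9 * s ^ 2 / 10) ≤
      Real.exp (s ^ 2) * Real.exp (-(1 / 100 * G)) := by
  have hc2 : 0 < 100 / c1 ^ 2 := by positivity
  have hG0 : 0 < G := by nlinarith
  have hG5 : (100000 : ℝ) ≤ G := by nlinarith
  have hs2 : s ≤ s ^ 2 := by nlinarith
  have hss : (1 : ℝ) ≤ s ^ 2 := by nlinarith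
  have hC : 100 / c1 ^ 2 ≤ Real.exp (G / 1000) := by
    have h1 := Real.add_one_le_exp (G / 1000)
    linarith
  have h5 : (80 : ℝ) ≤ Real.exp (G / 1000) := by
    have h1 := Real.add_one_le_exp (G / 1000)
    linarith
  have hE0 : 0 < Real.exp (s ^ 2) := Real.exp_pos _
  have hE1 : 0 < Real.exp (G / 1000) := Real.exp_pos _
  -- first term
  have ec : (s / c1) ^ 2 = s ^ 2 / c1 ^ 2 := by rw [div_pow]
  have t1 : 4 * ((s / c1) ^ 2 * (12 * s ^ 2 * Real.exp (-s))) ≤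
      1 / 8 * Real.exp (-(1 / 100 * G)) := by
    have e : 4 * ((s / c1) ^ 2 * (12 * s ^ 2 * Real.exp (-s))) =
        (48 / 100) * (100 / c1 ^ 2) * s ^ 4 * Real.exp (-s) := by
      rw [ec]
      field_simp
      ring
    rw [e]
    have h1 : (48 / 100) * (100 / c1 ^ 2) * s ^ 4 * Real.exp (-s) ≤
        1 * Real.exp (G / 1000) * Real.exp (G / 1000) * Real.exp (-s) := by
      have h2 : (48 / 100) * (100 / c1 ^ 2) ≤ 1 * Real.exp (G / 1000) := by linarith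
      have h3 : (0 : ℝ) ≤ s ^ 4 := by positivity
      have h4 := mul_le_mul h2 hs4 h3 (by positivity)
      exact mul_le_mul_of_nonneg_right h4 (Real.exp_pos _).le
    refine h1.trans ?_
    have h2 : 1 * Real.exp (G / 1000) * Real.exp (G / 1000) * Real.exp (-s) =
        Real.exp (G / 1000 + G / 1000 - s) := by
      rw [one_mul, ← Real.exp_add, ← Real.exp_add]
      ring_nf
    rw [h2]
    have h3 : Real.exp (G / 1000 + G / 1000 - s) ≤ Real.exp (-(1 / 100 * G)) * Real.exp (-(G / 1000)) := by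
      rw [← Real.exp_add]
      apply Real.exp_le_exp.2
      linarith
    refine h3.trans ?_
    have h4 : Real.exp (-(G / 1000)) ≤ 1 / 8 := by
      rw [Real.exp_neg]
      rw [inv_le_comm₀ hE1 (by norm_num)]
      linarith
    have h5 := mul_le_mul_of_nonneg_left h4 (Real.exp_pos (-(1 / 100 * G))).le
    linarith
  have t2 : 4 * ((s / c1) ^ 2 * (2 * (3 + 2 * s ^ 2) * Real.exp (-(G / 40)))) ≤
      1 / 8 * Real.exp (-(1 / 100 * G)) := by
    have e : 4 * ((s / c1) ^ 2 * (2 * (3 + 2 * s ^ 2) * Real.exp (-(G / 40)))) ≤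
        (40 / 100) * (100 / c1 ^ 2) * s ^ 4 * Real.exp (-(G / 40)) := by
      have h1 : 2 * (3 + 2 * s ^ 2) ≤ 10 * s ^ 2 := by linarith
      have h2 : 2 * (3 + 2 * s ^ 2) * Real.exp (-(G / 40)) ≤ 10 * s ^ 2 * Real.exp (-(G / 40)) :=
        mul_le_mul_of_nonneg_right h1 (Real.exp_pos _).le
      have h3 : (s / c1) ^ 2 * (2 * (3 + 2 * s ^ 2) * Real.exp (-(G / 40))) ≤
          (s / c1) ^ 2 * (10 * s ^ 2 * Real.exp (-(G / 40))) :=
        mul_le_mul_of_nonneg_left h2 (by positivity)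
      have h4 : 4 * ((s / c1) ^ 2 * (10 * s ^ 2 * Real.exp (-(G / 40)))) =
          (40 / 100) * (100 / c1 ^ 2) * s ^ 4 * Real.exp (-(G / 40)) := by
        rw [ec]
        field_simp
        ring
      linarith
    refine e.trans ?_
    have h1 : (40 / 100) * (100 / c1 ^ 2) * s ^ 4 * Real.exp (-(G / 40)) ≤
        1 * Real.exp (G / 1000) * Real.exp (G / 1000) * Real.exp (-(G / 40)) := by
      have h2 : (40 / 100) * (100 / c1 ^ 2) ≤ 1 * Real.exp (G / 1000) := by linarith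
      have h3 : (0 : ℝ) ≤ s ^ 4 := by positivity
      have h4 := mul_le_mul h2 hs4 h3 (by positivity)
      exact mul_le_mul_of_nonneg_right h4 (Real.exp_pos _).le
    refine h1.trans ?_
    have h2 : 1 * Real.exp (G / 1000) * Real.exp (G / 1000) * Real.exp (-(G / 40)) =
        Real.exp (G / 1000 + G / 1000 - G / 40) := by
      rw [one_mul, ← Real.exp_add, ← Real.exp_add]
      ring_nf
    rw [h2]
    have h3 : Real.exp (G / 1000 + G / 1000 - G / 40) ≤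
        Real.exp (-(1 / 100 * G)) * Real.exp (-(G / 1000)) := by
      rw [← Real.exp_add]
      apply Real.exp_le_exp.2
      linarith
    refine h3.trans ?_
    have h4 : Real.exp (-(G / 1000)) ≤ 1 / 8 := by
      rw [Real.exp_neg]
      rw [inv_le_comm₀ hE1 (by norm_num)]
      linarith
    have h5 := mul_le_mul_of_nonneg_left h4 (Real.exp_pos (-(1 / 100 * G))).le
    linarith
  have hsG2 : 1000 * G ≤ s ^ 2 := by linarith
  have tt : ∀ a : ℝ, a ≤ 9 * s ^ 2 / 10 →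
      Real.exp a ≤ 1 / 80 * (Real.exp (s ^ 2) * Real.exp (-(1 / 100 * G))) := by
    intro a ha
    have h1 : Real.exp a ≤ Real.exp (-(G / 1000)) *
        (Real.exp (s ^ 2) * Real.exp (-(1 / 100 * G))) := by
      rw [← Real.exp_add, ← Real.exp_add]
      apply Real.exp_le_exp.2
      linarith
    refine h1.trans ?_
    apply mul_le_mul_of_nonneg_right _ (by positivity)
    rw [Real.exp_neg]
    rw [inv_le_comm₀ hE1 (by norm_num)]
    linarith
  have t3 := tt (4 * s ^ 2 / 15) (by linarith)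
  have t4 := tt (2 * s ^ 2 / 15) (by linarith)
  have t5 := tt (9 * s ^ 2 / 10) (by linarith)
  have t12 := mul_le_mul_of_nonneg_left (add_le_add t1 t2) hE0.le
  have e : 4 * Real.exp (s ^ 2) * ((s / c1) ^ 2 * (12 * s ^ 2 * Real.exp (-s) +
      2 * (3 + 2 * s ^ 2) * Real.exp (-(G / 40)))) = Real.exp (s ^ 2) *
      (4 * ((s / c1) ^ 2 * (12 * s ^ 2 * Real.exp (-s))) +
        4 * ((s / c1) ^ 2 * (2 * (3 + 2 * s ^ 2) * Real.exp (-(G / 40))))) := by ring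
  rw [e]
  have hp : 0 < Real.exp (s ^ 2) * Real.exp (-(1 / 100 * G)) := by positivity
  nlinarith

/-- comparison of exponentials -/
theorem lb_exp (s : ℝ) (hs : 100000 ≤ s) :
    Real.exp (s ^ 2 / 30) + Real.exp (s ^ 2 / 100) * Real.exp (s ^ 2 / 30) ^ 2 ≤
      Real.exp (s ^ 2 / 10) - 1 ∧ Real.exp (s ^ 2 / 100) ≤ Real.exp (s ^ 2 / 10) - 1 ∧
    Real.exp (s ^ 2 / 100) + 2 ≤ Real.exp (9 * s ^ 2 / 10) ∧
    (2 * Real.exp (s ^ 2 / 10)) ^ 2 * Real.exp (s ^ 2 / 30) ≤ Real.exp (9 * s ^ 2 / 10) ∧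
    1 ≤ Real.exp (s ^ 2 / 10) - 1 := by
  have hs2 : (100000 : ℝ) ≤ s ^ 2 := by nlinarith
  have key : ∀ a b : ℝ, a + 10 ≤ b → 4 * Real.exp a ≤ Real.exp b := by
    intro a b hab
    have h1 : Real.exp b = Real.exp a * Real.exp (b - a) := by
      rw [← Real.exp_add]
      ring_nf
    have h2 := Real.add_one_le_exp (b - a)
    have h3 : 0 < Real.exp a := Real.exp_pos a
    rw [h1]
    nlinarith
  have e0 : Real.exp 0 = 1 := Real.exp_zero
  have k1 := key (s ^ 2 / 30) (s ^ 2 / 10) (by linarith)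
  have k2 := key (s ^ 2 / 100) (s ^ 2 / 10) (by linarith)
  have k3 := key 0 (s ^ 2 / 10) (by linarith)
  have k4 := key (s ^ 2 / 100 + s ^ 2 / 15) (s ^ 2 / 10) (by linarith)
  have k5 := key (s ^ 2 / 100) (9 * s ^ 2 / 10) (by linarith)
  have k6 := key 0 (9 * s ^ 2 / 10) (by linarith)
  have k7 := key (7 * s ^ 2 / 30) (9 * s ^ 2 / 10) (by linarith)
  have e1 : Real.exp (s ^ 2 / 100) * Real.exp (s ^ 2 / 30) ^ 2 =
      Real.exp (s ^ 2 / 100 + s ^ 2 / 15) := by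
    rw [← Real.exp_nat_mul, ← Real.exp_add]
    push_cast
    ring_nf
  have e2 : (2 * Real.exp (s ^ 2 / 10)) ^ 2 * Real.exp (s ^ 2 / 30) =
      4 * Real.exp (7 * s ^ 2 / 30) := by
    rw [mul_pow, ← Real.exp_nat_mul, mul_assoc, ← Real.exp_add]
    push_cast
    ring_nf
  rw [e0] at k3 k6
  refine ⟨?_, ?_, ?_, ?_, ?_⟩
  · rw [e1]; linarith
  · linarith
  · linarith
  · rw [e2]; linarith
  · linarith

/-- sizes -/
theorem lb_size (K l G s : ℝ) (hK : 100000 ≤ K) (a2 : K ≤ Real.log l)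
    (a3 : K * Real.log l ^ 2 ≤ l) (a4 : K * l ^ 4 ≤ s) (a5 : 0 < s)
    (a7 : Real.log s = l / 2) (a9 : G * l = s * Real.log l) (a10 : K ≤ G) (a11 : K * G ≤ s) :
    1000 * G ≤ s ∧ 100000 ≤ s ∧ s ^ 4 ≤ Real.exp (G / 1000) := by
  have hll : 1 ≤ Real.log l := by linarith
  have hl0 : 0 < l := by
    have h1 : 0 < K * Real.log l ^ 2 := by positivity
    linarith
  have hG0 : 0 < G := by linarith
  have hl1 : 1 ≤ l := by
    have h1 : 1 ≤ Real.log l ^ 2 := by nlinarith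
    nlinarith
  have h1 : s * 1 ≤ s * Real.log l := mul_le_mul_of_nonneg_left hll a5.le
  have h2 : K * l ^ 4 ≤ G * l := by linarith
  have h3 : K * l ^ 3 ≤ G := by
    have h4 : K * l ^ 3 * l ≤ G * l := by linarith [show K * l ^ 3 * l = K * l ^ 4 by ring]
    exact le_of_mul_le_mul_right h4 hl0
  have h4 : l ≤ l ^ 3 := by
    have h5 : 1 ≤ l ^ 2 := by nlinarith
    have h6 : l * 1 ≤ l * l ^ 2 := mul_le_mul_of_nonneg_left h5 hl0.le
    linarith [show l * l ^ 2 = l ^ 3 by ring]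
  have h5 : K * l ≤ G := (mul_le_mul_of_nonneg_left h4 (by linarith)).trans h3
  refine ⟨by nlinarith, by nlinarith, ?_⟩
  have h6 : s = Real.exp (l / 2) := by rw [← a7, Real.exp_log a5]
  rw [h6, ← Real.exp_nat_mul]
  apply Real.exp_le_exp.2
  push_cast
  nlinarith

/-- the correlations compared with the square of the mean -/
theorem lb_corr (c1 G s m μ : ℝ) (hc1 : 0 < c1) (hs : 0 < s) (hm0 : 0 < m)
    (hμm : c1 / s * m ≤ μ) (hm : Real.exp (G / 40) ≤ m) :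
    12 * s ^ 2 / Real.exp s * m ^ 2 + (3 + 2 * s ^ 2) * (2 * m) ≤
      (s / c1) ^ 2 * (12 * s ^ 2 * Real.exp (-s) + 2 * (3 + 2 * s ^ 2) * Real.exp (-(G / 40))) *
        μ ^ 2 := by
  have e1 : m ≤ s / c1 * μ := by
    rw [div_mul_eq_mul_div, le_div_iff₀ hc1]
    have e3 : c1 / s * m * s ≤ μ * s := mul_le_mul_of_nonneg_right hμm hs.le
    have e2 : c1 / s * m * s = m * c1 := by
      field_simp
    linarith
  have e3 : m ^ 2 ≤ (s / c1) ^ 2 * μ ^ 2 := by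
    rw [← mul_pow]
    exact pow_le_pow_left₀ hm0.le e1 2
  have e4 : 12 * s ^ 2 / Real.exp s = 12 * s ^ 2 * Real.exp (-s) := by
    rw [Real.exp_neg]
    rfl
  have e6 : 1 ≤ Real.exp (-(G / 40)) * m := by
    rw [Real.exp_neg, inv_mul_eq_div, one_le_div (Real.exp_pos _)]
    exact hm
  have e5 : m ≤ Real.exp (-(G / 40)) * m ^ 2 := by
    have e7 := mul_le_mul_of_nonneg_right e6 hm0.le
    linarith [show Real.exp (-(G / 40)) * m * m = Real.exp (-(G / 40)) * m ^ 2 by ring]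
  have e7 : (3 + 2 * s ^ 2) * (2 * m) ≤ 2 * (3 + 2 * s ^ 2) * Real.exp (-(G / 40)) * m ^ 2 := by
    have h0 : 0 ≤ 2 * (3 + 2 * s ^ 2) := by positivity
    have h := mul_le_mul_of_nonneg_left e5 h0
    linarith
  have e8 : 12 * s ^ 2 / Real.exp s * m ^ 2 + (3 + 2 * s ^ 2) * (2 * m) ≤
      (12 * s ^ 2 * Real.exp (-s) + 2 * (3 + 2 * s ^ 2) * Real.exp (-(G / 40))) * m ^ 2 := by
    rw [e4]
    linarith
  refine e8.trans ?_
  have e9 : 0 ≤ 12 * s ^ 2 * Real.exp (-s) + 2 * (3 + 2 * s ^ 2) * Real.exp (-(G / 40)) := by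
    positivity
  have h := mul_le_mul_of_nonneg_left e3 e9
  linarith

/-- the number of exceptions of the second moment -/
theorem lb_exc (c1 G s m μ N D n Z : ℝ) (hc1 : 0 < c1) (hs : 0 < s) (hm0 : 0 < m)
    (hμm : c1 / s * m ≤ μ) (hm : Real.exp (G / 40) ≤ m) (hN0 : 0 ≤ N) (hN : N ≤ Real.exp (s ^ 2))
    (hD : D ≤ 12 * s ^ 2 / Real.exp s * m ^ 2 + (3 + 2 * s ^ 2) * (2 * m)) (hn0 : 0 ≤ n)
    (hn : n ≤ 2 * Real.exp (2 * s ^ 2 / 15) * μ)
    (hZ : Z * μ ^ 2 ≤ 4 * (N * D + n ^ 2 + 2 * n * μ)) :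
    Z ≤ 4 * Real.exp (s ^ 2) * ((s / c1) ^ 2 * (12 * s ^ 2 * Real.exp (-s) +
      2 * (3 + 2 * s ^ 2) * Real.exp (-(G / 40)))) + 16 * Real.exp (4 * s ^ 2 / 15) +
      16 * Real.exp (2 * s ^ 2 / 15) := by
  have hμp : 0 < μ := lt_of_lt_of_le (by positivity) hμm
  have hμ2 : 0 < μ ^ 2 := by positivity
  have h4 := lb_corr c1 G s m μ hc1 hs hm0 hμm hm
  have hD0 : 0 ≤ 12 * s ^ 2 / Real.exp s * m ^ 2 + (3 + 2 * s ^ 2) * (2 * m) := by positivity
  have h1 : N * D ≤ Real.exp (s ^ 2) *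
      ((s / c1) ^ 2 * (12 * s ^ 2 * Real.exp (-s) + 2 * (3 + 2 * s ^ 2) * Real.exp (-(G / 40))) *
        μ ^ 2) :=
    ((mul_le_mul_of_nonneg_left hD hN0).trans (mul_le_mul_of_nonneg_right hN hD0)).trans
      (mul_le_mul_of_nonneg_left h4 (Real.exp_pos _).le)
  set W := Real.exp (2 * s ^ 2 / 15) with hW
  have hW0 : 0 < W := Real.exp_pos _
  have h2 : n ^ 2 ≤ (2 * W * μ) ^ 2 := pow_le_pow_left₀ hn0 hn 2
  have h3 : n * μ ≤ 2 * W * μ * μ := mul_le_mul_of_nonneg_right hn hμp.le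
  have h5 : Z * μ ^ 2 ≤ (4 * Real.exp (s ^ 2) * ((s / c1) ^ 2 *
      (12 * s ^ 2 * Real.exp (-s) + 2 * (3 + 2 * s ^ 2) * Real.exp (-(G / 40)))) +
      16 * W ^ 2 + 16 * W) * μ ^ 2 := by
    have e1 : (2 * W * μ) ^ 2 = 4 * W ^ 2 * μ ^ 2 := by ring
    have e2 : 2 * W * μ * μ = 2 * W * μ ^ 2 := by ring
    rw [e1] at h2
    rw [e2] at h3
    linarith
  have h6 := le_of_mul_le_mul_right h5 hμ2
  have e : W ^ 2 = Real.exp (4 * s ^ 2 / 15) := by
    rw [hW, ← Real.exp_nat_mul]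
    push_cast
    ring_nf
  rw [e] at h6
  exact h6

/-- the mean value is large -/
theorem lb_mean (c1 G s m μ : ℝ) (hc1 : 0 < c1) (hs1 : 1 ≤ s)
    (hG1 : 1000 * (1 / c1 + 100) ≤ G) (hs4 : s ^ 4 ≤ Real.exp (G / 1000))
    (hμm : c1 / s * m ≤ μ) (hm : Real.exp (G / 40) ≤ m) : Real.exp (1 / 100 * G) ≤ μ / 2 := by
  have hs0 : 0 < s := by linarith
  have hic : 0 < 1 / c1 := by positivity
  have hG0 : 0 < G := by linarith
  have e1 : c1 / s * Real.exp (G / 40) ≤ μ :=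
    (mul_le_mul_of_nonneg_left hm (by positivity)).trans hμm
  have f1 : s ≤ Real.exp (G / 1000) := by
    refine le_trans ?_ hs4
    have h1 : 1 ≤ s ^ 3 := one_le_pow₀ hs1
    have h2 := mul_le_mul_of_nonneg_left h1 hs0.le
    linarith [show s * s ^ 3 = s ^ 4 by ring]
  have f2 : 2 / c1 ≤ Real.exp (G / 1000) * Real.exp (G / 1000) := by
    have f3 := Real.add_one_le_exp (G / 1000)
    have f4 : 2 / c1 = 2 * (1 / c1) := by ring
    have f5 : (2 : ℝ) ≤ Real.exp (G / 1000) := by linarith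
    have f6 : 1 / c1 ≤ Real.exp (G / 1000) := by linarith
    rw [f4]
    exact mul_le_mul f5 f6 hic.le (by positivity)
  have e2 : 2 * s / c1 ≤ Real.exp (3 * G / 200) := by
    have f5 : 2 * s / c1 = s * (2 / c1) := by ring
    rw [f5]
    refine (mul_le_mul f1 f2 (by positivity) (by positivity)).trans ?_
    rw [← Real.exp_add, ← Real.exp_add]
    apply Real.exp_le_exp.2
    linarith
  have f1 : Real.exp (G / 40) = Real.exp (1 / 100 * G) * (Real.exp (3 * G / 200)) := by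
    rw [← Real.exp_add]
    ring_nf
  have f3 : 2 ≤ c1 / s * Real.exp (3 * G / 200) := by
    have f4 : c1 / s * (2 * s / c1) = 2 := by
      field_simp
    have f5 := mul_le_mul_of_nonneg_left e2 (show (0 : ℝ) ≤ c1 / s by positivity)
    linarith
  have f6 : 0 < Real.exp (1 / 100 * G) := Real.exp_pos _
  rw [f1] at e1
  have f7 := mul_le_mul_of_nonneg_left f3 f6.le
  linarith [show Real.exp (1 / 100 * G) * (c1 / s * Real.exp (3 * G / 200)) =
    c1 / s * (Real.exp (1 / 100 * G) * Real.exp (3 * G / 200)) by ring]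

/-- the application of `T_NI` -/
theorem lb_ni (hNI : T_NI) (s : ℝ) (hs : 100000 ≤ s) {r : ℕ} (hr : 1 ≤ r)
    (A : Fin r → Finset ℕ) (Y k : ℕ) (z : ℝ) (hY1 : 1 ≤ Y)
    (hYle : (Y : ℝ) ≤ Real.exp (s ^ 2 / 10)) (hYge : Real.exp (s ^ 2 / 10) - 1 ≤ (Y : ℝ))
    (hA2 : ∀ i, ∀ a ∈ A i, 2 ≤ a) (hAd : ∀ i j, i ≠ j → Disjoint (A i) (A j))
    (hQ : ∀ a ∈ Fintype.piFinset A, (Qf a : ℝ) ≤ Real.exp (s ^ 2 / 30))
    (hS : ∀ a ∈ Fintype.piFinset A, (Sg a : ℝ) ≤ Real.exp (s ^ 2 / 100))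
    (hne : (Fintype.piFinset A).Nonempty) (hkx : Real.exp (9 * s ^ 2 / 10) < k) :
    Rk (IX A Y z) qb eb k ≤ (SPM k).ncard := by
  obtain ⟨b1, b2, b3, b4, b5⟩ := lb_exp s hs
  obtain ⟨a0, ha0⟩ := hne
  have ha0' := ha0
  rw [Fintype.mem_piFinset] at ha0'
  have hAY : ∀ i, ∀ a ∈ A i, 2 ≤ a ∧ a ≤ Y := by
    intro i a ha
    refine ⟨hA2 i a ha, ?_⟩
    have hup : Function.update a0 i a ∈ Fintype.piFinset A := by
      rw [Fintype.mem_piFinset]
      intro j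
      by_cases hj : j = i
      · subst hj
        rw [Function.update_self]
        exact ha
      · rw [Function.update_of_ne hj]
        exact ha0' j
    have h1 := hS _ hup
    have h2 : a ≤ Sg (Function.update a0 i a) := by
      unfold Sg
      have h3 := Finset.single_le_sum (f := fun j => Function.update a0 i a j)
        (fun j _ => Nat.zero_le _) (mem_univ i)
      simpa using h3
    have h3 : (a : ℝ) ≤ Y :=
      ((by exact_mod_cast h2 : (a : ℝ) ≤ _).trans h1).trans (b2.trans hYge)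
    exact_mod_cast h3
  have hrk : r + 2 ≤ k := by
    have h1 : (r : ℝ) ≤ Real.exp (s ^ 2 / 100) := by
      have h2 : r ≤ Sg a0 := by
        unfold Sg
        have h3 : ∑ _i : Fin r, 1 ≤ ∑ i, a0 i := by
          apply Finset.sum_le_sum
          intro i _
          have := hA2 i _ (ha0' i)
          omega
        simpa using h3
      exact (by exact_mod_cast h2 : (r : ℝ) ≤ _).trans (hS _ ha0)
    have h3 : ((r + 2 : ℕ) : ℝ) ≤ k := by
      push_cast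
      linarith
    exact_mod_cast h3
  have hbig : ∀ a ∈ Fintype.piFinset A, (2 * Y) ^ 2 * Qf a < k := by
    intro a ha
    have h1 : ((2 * Y : ℕ) : ℝ) ≤ 2 * Real.exp (s ^ 2 / 10) := by
      push_cast
      linarith
    have h2 : (((2 * Y) ^ 2 * Qf a : ℕ) : ℝ) ≤
        (2 * Real.exp (s ^ 2 / 10)) ^ 2 * Real.exp (s ^ 2 / 30) := by
      rw [Nat.cast_mul, Nat.cast_pow]
      exact mul_le_mul (pow_le_pow_left₀ (Nat.cast_nonneg _) h1 2) (hQ a ha)
        (Nat.cast_nonneg _) (by positivity)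
    have h4 : (((2 * Y) ^ 2 * Qf a : ℕ) : ℝ) < k := by linarith
    exact_mod_cast h4
  exact hNI r A Y k z hr hY1 hAY hAd hrk hbig

/-- products of tuples -/
theorem lb_two {r : ℕ} (hr : 1 ≤ r) (A : Fin r → Finset ℕ) (hA2 : ∀ i, ∀ a ∈ A i, 2 ≤ a) :
    ∀ a ∈ Fintype.piFinset A, 2 ≤ Qf a := by
  intro a ha
  rw [Fintype.mem_piFinset] at ha
  have h1 : a ⟨0, hr⟩ ∣ Qf a := Finset.dvd_prod_of_mem _ (mem_univ _)
  have h2 : 0 < Qf a := Finset.prod_pos fun i _ => by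
    have := hA2 i (a i) (ha i)
    omega
  exact (hA2 _ _ (ha ⟨0, hr⟩)).trans (Nat.le_of_dvd h2 h1)

/-- membership -/
theorem lb_mem {r : ℕ} (A : Fin r → Finset ℕ) (Y : ℕ) (z : ℝ) :
    ∀ y ∈ IX A Y z, y.1 ∈ Fintype.piFinset A ∧ Y < y.2 ∧ y.2 ≤ 2 * Y := by
  intro y hy
  unfold IX at hy
  rw [Finset.mem_filter, Finset.mem_product, Finset.mem_Ioc] at hy
  exact ⟨hy.1.1, hy.1.2.1, hy.1.2.2⟩

/-- the moduli -/
theorem lb_q {r : ℕ} (s : ℝ) (A : Fin r → Finset ℕ) (Y : ℕ) (z : ℝ)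
    (hYle : (Y : ℝ) ≤ Real.exp (s ^ 2 / 10)) (hQ2 : ∀ a ∈ Fintype.piFinset A, 2 ≤ Qf a)
    (hY1 : 1 ≤ Y)
    (hQ : ∀ a ∈ Fintype.piFinset A, (Qf a : ℝ) ≤ Real.exp (s ^ 2 / 30)) :
    ∀ y ∈ IX A Y z, 1 ≤ qb y ∧ (qb y : ℝ) ≤ 2 * Real.exp (2 * s ^ 2 / 15) := by
  intro y hy
  obtain ⟨b1, b2, b3⟩ := lb_mem A Y z y hy
  have h0 : 2 ≤ y.2 * Qf y.1 := by
    have h1 := hQ2 _ b1
    calc 2 ≤ 1 * Qf y.1 := by omega
      _ ≤ y.2 * Qf y.1 := Nat.mul_le_mul_right _ (by omega)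
  refine ⟨by unfold qb; omega, ?_⟩
  have h1 : (qb y : ℝ) ≤ (y.2 : ℝ) * Qf y.1 := by
    unfold qb
    have : y.2 * Qf y.1 - 1 ≤ y.2 * Qf y.1 := Nat.sub_le _ _
    exact_mod_cast this
  have h2 : (y.2 : ℝ) ≤ 2 * Real.exp (s ^ 2 / 10) := by
    have : (y.2 : ℝ) ≤ 2 * Y := by exact_mod_cast b3
    linarith
  have h3 := hQ _ b1
  have h4 : (y.2 : ℝ) * Qf y.1 ≤ 2 * Real.exp (s ^ 2 / 10) * Real.exp (s ^ 2 / 30) :=
    mul_le_mul h2 h3 (Nat.cast_nonneg _) (by positivity)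
  refine h1.trans (h4.trans (le_of_eq ?_))
  rw [mul_assoc, ← Real.exp_add]
  ring_nf

/-- `T_LB` -/
theorem pf_LB (hAS : T_AS) (hFA : T_FA) (hCH : T_CH) (hDD : T_DD) (hNI : T_NI) (hMU : T_MU) :
    T_LB := by
  obtain ⟨c1, x1, hc1, hMU⟩ := hMU
  obtain ⟨x2, hFA⟩ := hFA
  obtain ⟨x3, hAS⟩ := hAS (max (max x1 x2) (1000 * (100 / c1 ^ 2 + 100 + c1 + 1 / c1)))
  refine ⟨1 / 100, x3, by norm_num, fun x hx u => ?_⟩
  obtain ⟨a1, a2, a3, a4, a5, a6, a7, a8, a9, a10, a11⟩ := hAS x hx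
  have hx1 : x1 ≤ x := ((le_max_left x1 x2).trans (le_max_left _ _)).trans a1
  have hx2 : x2 ≤ x := ((le_max_right x1 x2).trans (le_max_left _ _)).trans a1
  have hK1 : 1000 * (100 / c1 ^ 2 + 100 + c1 + 1 / c1) ≤
    max (max x1 x2) (1000 * (100 / c1 ^ 2 + 100 + c1 + 1 / c1)) := le_max_right _ _
  generalize max (max x1 x2) (1000 * (100 / c1 ^ 2 + 100 + c1 + 1 / c1)) = K at *
  have hic : 0 < 1 / c1 := by positivity
  have hic2 : 0 < 100 / c1 ^ 2 := by positivity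
  have hK0 : (100000 : ℝ) ≤ K := by linarith
  have hxp : 0 < x := by linarith
  obtain ⟨hsG, hs100, hs4⟩ := lb_size K (el x) (gx x) (sx x) hK0 a2 a3 a4 a5 a7 a9 a10 a11
  have hG1 : 1000 * (100 / c1 ^ 2 + 100) ≤ gx x := by linarith
  have hG2 : 1000 * (1 / c1 + 100) ≤ gx x := by linarith
  have hs1 : 1 ≤ sx x := by linarith
  obtain ⟨b1, b2, b3, b4, b5⟩ := lb_exp (sx x) hs100
  -- the family
  obtain ⟨r, A, hr, hA2, hAd, hAQ, hm, hco⟩ := hFA x hx2
  have hm0 : 0 < mq A := lt_of_lt_of_le (Real.exp_pos _) hm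
  have hco0 : 0 ≤ co A := Finset.sum_nonneg fun a _ => Finset.sum_nonneg fun b _ => by positivity
  have hpow : ∀ a : ℝ, x ^ a = Real.exp (a * sx x ^ 2) := by
    intro a
    rw [Real.rpow_def_of_pos hxp, ← a6]
    ring_nf
  have hYle : (Yn x : ℝ) ≤ Real.exp (sx x ^ 2 / 10) := by
    have h1 : (Yn x : ℝ) ≤ x ^ (1 / 10 : ℝ) := Nat.floor_le (by positivity)
    rw [hpow] at h1
    refine h1.trans (le_of_eq ?_)
    ring_nf
  have hYge : Real.exp (sx x ^ 2 / 10) - 1 ≤ (Yn x : ℝ) := by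
    have h1 : x ^ (1 / 10 : ℝ) < Yn x + 1 := Nat.lt_floor_add_one _
    rw [hpow] at h1
    have h2 : (1 / 10 : ℝ) * sx x ^ 2 = sx x ^ 2 / 10 := by ring
    rw [h2] at h1
    linarith
  have hYbig : (1 : ℝ) ≤ Yn x := b5.trans hYge
  have hY1 : 1 ≤ Yn x := by exact_mod_cast hYbig
  have hss : 1 ≤ sx x ^ 2 := one_le_pow₀ hs1
  have hlogY : Real.log (Yn x) ≤ sx x ^ 2 := by
    have h1 := Real.log_le_log (by linarith) hYle
    rw [Real.log_exp] at h1
    linarith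
  have hlogY0 : 0 ≤ Real.log (Yn x) := Real.log_nonneg hYbig
  have hz0 : 0 < Real.exp (sx x) := Real.exp_pos _
  have hlogYz : 3 * Real.log (Yn x) ≤ Real.exp (sx x) := by
    have h1 : sx x ^ 4 ≤ Real.exp (sx x) := hs4.trans (Real.exp_le_exp.2 (by linarith))
    have h2 : 3 ≤ sx x ^ 2 := by nlinarith
    have h3 : 3 * sx x ^ 2 ≤ sx x ^ 2 * sx x ^ 2 := mul_le_mul_of_nonneg_right h2 (by positivity)
    linarith [show sx x ^ 2 * sx x ^ 2 = sx x ^ 4 by ring]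
  have hQ : ∀ a ∈ Fintype.piFinset A, (Qf a : ℝ) ≤ Real.exp (sx x ^ 2 / 30) := by
    intro a ha
    have h1 := (hAQ a ha).1
    rw [hpow] at h1
    refine h1.trans (le_of_eq ?_)
    ring_nf
  have hS : ∀ a ∈ Fintype.piFinset A, (Sg a : ℝ) ≤ Real.exp (sx x ^ 2 / 100) := by
    intro a ha
    have h1 := (hAQ a ha).2
    rw [hpow] at h1
    refine h1.trans (le_of_eq ?_)
    ring_nf
  have hne : (Fintype.piFinset A).Nonempty := by
    by_contra h
    rw [Finset.not_nonempty_iff_eq_empty] at h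
    have h2 : mq A = 0 := by
      unfold mq
      rw [h]
      rfl
    linarith
  have hQ2 := lb_two hr A hA2
  have hq := lb_q (sx x) A (Yn x) (Real.exp (sx x)) hYle hQ2 hY1 hQ
  have hμm := hMU x hx1 r A hr hA2
  have hDl : Dl (IX A (Yn x) (Real.exp (sx x))) qb eb ≤
      12 * sx x ^ 2 / Real.exp (sx x) * mq A ^ 2 + (3 + 2 * sx x ^ 2) * (2 * mq A) := by
    have h1 := hDD r A (Yn x) (Real.exp (sx x)) hr hY1 hlogYz hz0 hA2 (Real.exp (sx x ^ 2 / 30))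
      (Real.exp (sx x ^ 2 / 100)) (fun a ha => ⟨hQ a ha, hS a ha⟩) (b1.trans hYge)
    refine h1.trans ?_
    apply add_le_add
    · apply mul_le_mul_of_nonneg_right _ (sq_nonneg _)
      apply div_le_div_of_nonneg_right _ hz0.le
      linarith
    · exact mul_le_mul (by linarith) (by linarith) (by linarith) (by positivity)
  have hn : ((IX A (Yn x) (Real.exp (sx x))).card : ℝ) ≤ 2 * Real.exp (2 * sx x ^ 2 / 15) *
      ∑ y ∈ IX A (Yn x) (Real.exp (sx x)), (1 : ℝ) / qb y := by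
    have h1 : ∑ y ∈ IX A (Yn x) (Real.exp (sx x)), (1 : ℝ) ≤
        ∑ y ∈ IX A (Yn x) (Real.exp (sx x)), 2 * Real.exp (2 * sx x ^ 2 / 15) * (1 / qb y) := by
      apply Finset.sum_le_sum
      intro y hy
      have h2 : (0 : ℝ) < qb y := by exact_mod_cast (hq y hy).1
      rw [mul_one_div, le_div_iff₀ h2, one_mul]
      exact (hq y hy).2
    rw [← Finset.mul_sum, Finset.sum_const, nsmul_eq_mul, mul_one] at h1
    exact h1
  generalize hI : IX A (Yn x) (Real.exp (sx x)) = I at *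
  generalize hμ : ∑ y ∈ I, (1 : ℝ) / qb y = μ at *
  -- Chebyshev
  have hvu : (((u + ⌊x⌋₊ : ℕ) : ℝ) - u) ≤ Real.exp (sx x ^ 2) := by
    rw [← a8]
    push_cast
    have := Nat.floor_le hxp.le
    linarith
  have hvu0 : 0 ≤ (((u + ⌊x⌋₊ : ℕ) : ℝ) - u) := by
    push_cast
    have : (0 : ℝ) ≤ (⌊x⌋₊ : ℝ) := Nat.cast_nonneg _
    linarith
  have hch := hCH _ I qb eb u (u + ⌊x⌋₊) (by omega) (fun y hy => (hq y hy).1)
  rw [hμ] at hch
  have hZ1 := lb_exc c1 (gx x) (sx x) (mq A) μ _ _ _ _ hc1 a5 hm0 hμm hm hvu0 hvu hDl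
    (Nat.cast_nonneg _) hn hch
  have hmean := lb_mean c1 (gx x) (sx x) (mq A) μ hc1 hs1 hG2 hs4 hμm hm
  -- the inclusion
  have hsub : (Ioc u (u + ⌊x⌋₊)).filter
      (fun k => ((SPM k).ncard : ℝ) < Real.exp (1 / 100 * gx x)) ⊆
      (Ioc u (u + ⌊x⌋₊)).filter (fun k => (Rk I qb eb k : ℝ) < μ / 2) ∪
        Icc 1 ⌊Real.exp (9 * sx x ^ 2 / 10)⌋₊ := by
    intro k hk
    rw [Finset.mem_filter, Finset.mem_Ioc] at hk
    obtain ⟨⟨k1, k2⟩, k3⟩ := hk
    rw [Finset.mem_union, Finset.mem_filter, Finset.mem_Ioc, Finset.mem_Icc]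
    by_cases hku : k ≤ ⌊Real.exp (9 * sx x ^ 2 / 10)⌋₊
    · right
      exact ⟨by omega, hku⟩
    · left
      refine ⟨⟨k1, k2⟩, ?_⟩
      by_contra hR
      push Not at hR hku
      have hkx : Real.exp (9 * sx x ^ 2 / 10) < k := by
        rw [Nat.floor_lt (by positivity)] at hku
        exact hku
      have h1 := lb_ni hNI (sx x) hs100 hr A (Yn x) k (Real.exp (sx x)) hY1 hYle hYge hA2 hAd hQ hS
        hne hkx
      rw [hI] at h1
      have h2 : (Rk I qb eb k : ℝ) ≤ ((SPM k).ncard : ℝ) := by exact_mod_cast h1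
      linarith
  have hcard := (Finset.card_le_card hsub).trans (Finset.card_union_le _ _)
  rw [Nat.card_Icc, Nat.add_sub_cancel] at hcard
  have hcard' : (((Ioc u (u + ⌊x⌋₊)).filter
      (fun k => ((SPM k).ncard : ℝ) < Real.exp (1 / 100 * gx x))).card : ℝ) ≤
      (((Ioc u (u + ⌊x⌋₊)).filter (fun k => (Rk I qb eb k : ℝ) < μ / 2)).card : ℝ) +
        (⌊Real.exp (9 * sx x ^ 2 / 10)⌋₊ : ℝ) := by
    exact_mod_cast hcard
  have hu0 : (⌊Real.exp (9 * sx x ^ 2 / 10)⌋₊ : ℝ) ≤ Real.exp (9 * sx x ^ 2 / 10) :=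
    Nat.floor_le (by positivity)
  have hfin := lb_final c1 (gx x) (sx x) hc1 hs1 hsG hG1 hs4
  have hxe : x * Real.exp (-(1 / 100 * gx x)) =
      Real.exp (sx x ^ 2) * Real.exp (-(1 / 100 * gx x)) := by rw [← a8]
  rw [hxe]
  linarith

end Pool.Agent.H26.NOK
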