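import Pool.Agent.H26.NO.Targets

/-!
Board nok_modules (MP_0cd084_nt), row VB: multisets with small parts and few large primes.
-/

set_option autoImplicit false

open Finset

namespace Pool.Agent.H26.NOK

open Pool.Agent.H26.NO

/-- `Om` is additive -/
theorem om_mul (w : ℕ) {a b : ℕ} (ha : a ≠ 0) (hb : b ≠ 0) :
    Om w (a * b) = Om w a + Om w b := by
  unfold Om
  rw [(Nat.perm_primeFactorsList_mul ha hb).countP_eq, List.countP_append]

/-- `Om` of one -/
theorem om_one (w : ℕ) : Om w 1 = 0 := by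
  unfold Om
  simp

/-- the weight of a multiset -/
theorem vb_prod (z : ℝ) (w : ℕ) (m : Multiset ℕ) (hm : ∀ a ∈ m, 2 ≤ a) :
    m.prod ≠ 0 ∧ (m.map (fun a : ℕ => z ^ Om w a / (a : ℝ))).prod =
      z ^ Om w m.prod / (m.prod : ℝ) := by
  induction m using Multiset.induction with
  | empty => simp [om_one]
  | cons a m ih =>
    have ha : 2 ≤ a := hm a (Multiset.mem_cons_self a m)
    obtain ⟨h1, h2⟩ := ih fun b hb => hm b (Multiset.mem_cons_of_mem hb)
    have ha0 : a ≠ 0 := by omega
    refine ⟨?_, ?_⟩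
    · rw [Multiset.prod_cons]
      exact mul_ne_zero ha0 h1
    · rw [Multiset.map_cons, Multiset.prod_cons, Multiset.prod_cons, h2, om_mul w ha0 h1,
        Nat.cast_mul, pow_add, mul_div_mul_comm]

/-- `T_VB` -/
theorem pf_VB (hAS : T_AS) (hMG : T_MG) (hVA : T_VA) : T_VB := by
  obtain ⟨x1, hVA⟩ := hVA
  obtain ⟨x0, hAS⟩ := hAS (max x1 100)
  refine ⟨x0, fun x hx F hF => ?_⟩
  obtain ⟨a1, a2, a3, a4, a5, a6, a7, a8, a9, a10, a11⟩ := hAS x hx
  have hx1 : x1 ≤ x := (le_max_left _ _).trans a1
  have hK : 100 ≤ max x1 100 := le_max_right _ _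
  generalize max x1 100 = K at *
  have hV := hVA x hx1
  have hll : 100 ≤ Real.log (el x) := by linarith
  have hl0 : 0 < el x := by
    have h1 : 0 < K * Real.log (el x) ^ 2 := by
      have : 0 < Real.log (el x) := by linarith
      have : 0 < K := by linarith
      positivity
    linarith
  have hkey : 100 * Real.log (el x) ≤ el x := by
    have h1 : Real.log (el x) ≤ Real.log (el x) ^ 2 := by nlinarith
    nlinarith
  have hG : 100 ≤ gx x := by linarith
  set t := 6 * Real.log (el x) / el x with ht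
  have ht0 : 0 < t := by
    have : 0 < Real.log (el x) := by linarith
    positivity
  have ht1 : t ≤ 1 / 4 := by
    rw [ht, div_le_iff₀ hl0]
    linarith
  set z := 1 - t with hz
  have hz0 : 0 < z := by linarith
  have hz1 : z ≤ 1 := by linarith
  set w := wn x with hw
  set n := n1 x with hn
  have hn1 : (n : ℝ) ≤ 4 * sx x + 1 := by
    have h1 := Nat.ceil_lt_add_one (show 0 ≤ 4 * sx x by positivity)
    exact h1.le
  -- the power of `z`
  have hzn : (z ^ n)⁻¹ ≤ Real.exp (48 * gx x + 1) := by
    have h1 : z⁻¹ ≤ Real.exp (2 * t) := by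
      rw [inv_le_comm₀ hz0 (Real.exp_pos _), ← Real.exp_neg]
      have h2 : Real.exp (-(2 * t)) * (1 + 2 * t) ≤ 1 := by
        have h3 := Real.add_one_le_exp (2 * t)
        have h4 : 0 < Real.exp (-(2 * t)) := Real.exp_pos _
        have h5 : Real.exp (-(2 * t)) * Real.exp (2 * t) = 1 := by
          rw [← Real.exp_add]
          simp
        nlinarith
      have h3 : 1 ≤ z * (1 + 2 * t) := by
        rw [hz]
        nlinarith
      have h4 : 0 < 1 + 2 * t := by linarith
      have h5 : Real.exp (-(2 * t)) * (1 + 2 * t) ≤ z * (1 + 2 * t) := by linarith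
      exact le_of_mul_le_mul_right h5 h4
    rw [← inv_pow]
    refine (pow_le_pow_left₀ (inv_pos.2 hz0).le h1 n).trans ?_
    rw [← Real.exp_nat_mul]
    apply Real.exp_le_exp.2
    have h6 : (n : ℝ) * (2 * t) ≤ (4 * sx x + 1) * (2 * t) :=
      mul_le_mul_of_nonneg_right hn1 (by positivity)
    have h7 : sx x * t = 6 * gx x := by
      have h8 : el x * (sx x * t) = el x * (6 * gx x) := by
        have h9 : el x * t = 6 * Real.log (el x) := by
          rw [ht]
          field_simp
        linarith [show el x * (sx x * t) = sx x * (el x * t) by ring,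
          show sx x * (el x * t) = sx x * (6 * Real.log (el x)) by rw [h9],
          show el x * (6 * gx x) = 6 * (gx x * el x) by ring]
      exact mul_left_cancel₀ hl0.ne' h8
    nlinarith
  -- the generating function
  have hM := hMG (Icc 2 ⌊Bx x⌋₊) (fun a : ℕ => z ^ Om w a / (a : ℝ)) F ?_ ?_
  · have hsum : ∑ a ∈ Icc 2 ⌊Bx x⌋₊, z ^ Om w a / (a : ℝ) ≤ gx x := by
      refine le_trans ?_ hV
      apply Finset.sum_le_sum_of_subset_of_nonneg
      · intro a ha
        rw [Finset.mem_Icc] at ha ⊢
        omega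
      · intro a _ _
        positivity
    have hterm : ∀ m ∈ F, (1 : ℝ) / (m.prod : ℝ) ≤
        (z ^ n)⁻¹ * (m.map (fun a : ℕ => z ^ Om w a / (a : ℝ))).prod := by
      intro m hm
      obtain ⟨h1, h2⟩ := vb_prod z w m fun a ha => ((hF m hm).1 a ha).1
      have h3 : z ^ n ≤ z ^ Om w m.prod := pow_le_pow_of_le_one hz0.le hz1 (hF m hm).2
      have h4 : (0 : ℝ) < (m.prod : ℝ) := by exact_mod_cast Nat.pos_of_ne_zero h1
      rw [h2, ← mul_div_assoc]
      apply div_le_div_of_nonneg_right _ h4.le
      rw [inv_mul_eq_div, one_le_div (pow_pos hz0 n)]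
      exact h3
    refine (Finset.sum_le_sum hterm).trans ?_
    rw [← Finset.mul_sum]
    have h1 : (z ^ n)⁻¹ * ∑ m ∈ F, (m.map (fun a : ℕ => z ^ Om w a / (a : ℝ))).prod ≤
        Real.exp (48 * gx x + 1) * Real.exp (2 * gx x) := by
      apply mul_le_mul hzn _ _ (Real.exp_pos _).le
      · refine hM.trans (Real.exp_le_exp.2 ?_)
        linarith
      · refine Finset.sum_nonneg fun m hm => ?_
        obtain ⟨h1, h2⟩ := vb_prod z w m fun a ha => ((hF m hm).1 a ha).1
        rw [h2]
        positivity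
    refine h1.trans ?_
    rw [← Real.exp_add]
    apply Real.exp_le_exp.2
    linarith
  · intro a ha
    rw [Finset.mem_Icc] at ha
    have ha2 : (2 : ℝ) ≤ a := by exact_mod_cast ha.1
    constructor
    · positivity
    · rw [div_le_div_iff₀ (by linarith) (by norm_num)]
      have h1 : z ^ Om w a ≤ 1 := pow_le_one₀ hz0.le hz1
      linarith
  · intro m hm a ha
    rw [Finset.mem_Icc]
    exact ⟨((hF m hm).1 a ha).1, Nat.le_floor ((hF m hm).1 a ha).2⟩

end Pool.Agent.H26.NOK
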