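import Pool.Agent.H26.NO.Targets

/-!
Board nok_modules (MP_0cd084_nt), row WB: multisets with big parts.
-/

set_option autoImplicit false

open Finset

namespace Pool.Agent.H26.NOK

open Pool.Agent.H26.NO

/-- powers of the product of a multiset -/
theorem wb_prod (e : ℝ) (m : Multiset ℕ) :
    (m.map (fun a : ℕ => (a : ℝ) ^ e)).prod = (m.prod : ℝ) ^ e := by
  induction m using Multiset.induction with
  | empty => simp
  | cons a m ih =>
    rw [Multiset.map_cons, Multiset.prod_cons, Multiset.prod_cons, ih, Nat.cast_mul,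
      Real.mul_rpow (Nat.cast_nonneg _) (Nat.cast_nonneg _)]

/-- `T_WB` -/
theorem pf_WB (hAS : T_AS) (hMG : T_MG) (hTL : T_TL) : T_WB := by
  obtain ⟨x0, hAS⟩ := hAS 100
  refine ⟨x0, fun x hx F hF => ?_⟩
  obtain ⟨a1, a2, a3, a4, a5, a6, a7, a8, a9, a10, a11⟩ := hAS x hx
  have hll : 0 < Real.log (el x) := by linarith
  have hl0 : 0 < el x := by
    have h1 : 0 < 100 * Real.log (el x) ^ 2 := by positivity
    linarith
  have hl1 : 100 ≤ el x := by nlinarith
  have hs100 : 100 ≤ sx x := by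
    have h1 : (1 : ℝ) ≤ el x ^ 4 := one_le_pow₀ (by linarith)
    linarith
  have hlle : Real.log (el x) ≤ el x := by
    have := Real.log_le_sub_one_of_pos hl0
    linarith
  set h := 2 * Real.log (el x) / (sx x * el x) with hh
  have hsl : 0 < sx x * el x := by positivity
  have hh0 : 0 < h := by positivity
  have hhm : h * (sx x * el x) = 2 * Real.log (el x) := by
    rw [hh]
    field_simp
  have hh1 : h ≤ 1 := by
    rw [hh, div_le_one hsl]
    nlinarith
  have hxp : 0 < x := by linarith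
  have hB1 : 2 ≤ Bx x := by
    unfold Bx
    have := Real.add_one_le_exp (sx x * el x)
    nlinarith
  have hfl1 : 1 ≤ ⌊Bx x⌋₊ := Nat.one_le_floor_iff _ |>.2 (by linarith)
  have hfl2 : Bx x / 2 ≤ (⌊Bx x⌋₊ : ℝ) := by
    have h1 : Bx x < ⌊Bx x⌋₊ + 1 := Nat.lt_floor_add_one _
    linarith
  -- the sum over the parts
  have hT := hTL ⌊Bx x⌋₊ ⌊2 * x⌋₊ h hfl1 hh0
  have hBh : (⌊Bx x⌋₊ : ℝ) ^ (-h) ≤ 2 * (el x ^ 2)⁻¹ := by
    have h1 : (⌊Bx x⌋₊ : ℝ) ^ (-h) ≤ (Bx x / 2) ^ (-h) :=
      Real.rpow_le_rpow_of_nonpos (by linarith) hfl2 (by linarith)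
    have h2 : (Bx x / 2) ^ (-h) = Bx x ^ (-h) * 2 ^ h := by
      rw [Real.div_rpow (by linarith) (by norm_num), Real.rpow_neg (by norm_num : (0 : ℝ) ≤ 2)]
      rw [div_inv_eq_mul]
    have h3 : (2 : ℝ) ^ h ≤ 2 := by
      calc (2 : ℝ) ^ h ≤ 2 ^ (1 : ℝ) := Real.rpow_le_rpow_of_exponent_le (by norm_num) hh1
        _ = 2 := Real.rpow_one 2
    have h4 : Bx x ^ (-h) = (el x ^ 2)⁻¹ := by
      unfold Bx
      rw [← Real.exp_mul]
      have e1 : sx x * el x * -h = -(2 * Real.log (el x)) := by linarith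
      rw [e1, Real.exp_neg]
      congr 1
      rw [show (2 : ℝ) * Real.log (el x) = ((2 : ℕ) : ℝ) * Real.log (el x) by norm_num,
        Real.exp_nat_mul, Real.exp_log hl0]
    rw [h2, h4] at h1
    refine h1.trans ?_
    have h5 : 0 < (el x ^ 2)⁻¹ := by positivity
    nlinarith
  have hsum : 2 * ∑ a ∈ Ioc ⌊Bx x⌋₊ ⌊2 * x⌋₊, (a : ℝ) ^ (-(1 + h)) ≤ 2 * gx x := by
    have h1 : (⌊Bx x⌋₊ : ℝ) ^ (-h) / h ≤ gx x := by
      rw [div_le_iff₀ hh0]
      refine hBh.trans ?_
      have e1 : gx x * h * (el x ^ 2) = 2 * Real.log (el x) ^ 2 := by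
        have e2 : gx x * el x * (h * (sx x * el x)) =
            sx x * Real.log (el x) * (2 * Real.log (el x)) := by rw [a9, hhm]
        have e3 : sx x * (gx x * h * (el x ^ 2)) = sx x * (2 * Real.log (el x) ^ 2) := by
          linarith [show gx x * el x * (h * (sx x * el x)) = sx x * (gx x * h * el x ^ 2) by ring,
            show sx x * Real.log (el x) * (2 * Real.log (el x)) =
              sx x * (2 * Real.log (el x) ^ 2) by ring]
        exact mul_left_cancel₀ a5.ne' e3
      rw [← div_eq_mul_inv, div_le_iff₀ (by positivity), e1]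
      nlinarith
    linarith
  -- the generating function
  have hM := hMG (Ioc ⌊Bx x⌋₊ ⌊2 * x⌋₊) (fun a : ℕ => (a : ℝ) ^ (-(1 + h))) F ?_ ?_
  · have hpos : ∀ m ∈ F, 0 < m.prod := by
      intro m hm
      apply Nat.pos_of_ne_zero
      intro h0
      rw [Multiset.prod_eq_zero_iff] at h0
      have := (hF m hm).1 0 h0
      push_cast at this
      linarith
    have hterm : ∀ m ∈ F, (1 : ℝ) / (m.prod : ℝ) ≤
        (2 * x) ^ h * (m.map (fun a : ℕ => (a : ℝ) ^ (-(1 + h)))).prod := by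
      intro m hm
      rw [wb_prod]
      have hp : (0 : ℝ) < (m.prod : ℝ) := by exact_mod_cast hpos m hm
      have e1 : (m.prod : ℝ) ^ (-(1 + h)) = (m.prod : ℝ)⁻¹ * ((m.prod : ℝ) ^ h)⁻¹ := by
        rw [Real.rpow_neg hp.le, Real.rpow_add hp, Real.rpow_one, mul_inv]
      have e2 : (m.prod : ℝ) ^ h ≤ (2 * x) ^ h := Real.rpow_le_rpow hp.le (hF m hm).2 hh0.le
      have e3 : 0 < (m.prod : ℝ) ^ h := Real.rpow_pos_of_pos hp h
      rw [e1, one_div]
      have e4 : 1 ≤ (2 * x) ^ h * ((m.prod : ℝ) ^ h)⁻¹ := by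
        rw [← div_eq_mul_inv, one_le_div e3]
        exact e2
      have e5 : 0 < (m.prod : ℝ)⁻¹ := inv_pos.2 hp
      nlinarith
    have h1 : ∑ m ∈ F, (1 : ℝ) / (m.prod : ℝ) ≤ (2 * x) ^ h * Real.exp (2 * gx x) := by
      refine (Finset.sum_le_sum hterm).trans ?_
      rw [← Finset.mul_sum]
      apply mul_le_mul_of_nonneg_left _ (by positivity)
      exact hM.trans (Real.exp_le_exp.2 hsum)
    refine h1.trans ?_
    rw [Real.rpow_def_of_pos (by linarith), ← Real.exp_add]
    apply Real.exp_le_exp.2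
    have e1 : Real.log (2 * x) = Real.log 2 + sx x ^ 2 := by
      rw [Real.log_mul (by norm_num) hxp.ne', a6]
    have e2 : Real.log 2 ≤ 1 := by
      have := Real.log_two_lt_d9
      linarith
    have e3 : sx x ^ 2 * h = 2 * gx x := by
      have e4 : el x * (sx x ^ 2 * h) = el x * (2 * gx x) := by
        linarith [show el x * (sx x ^ 2 * h) = sx x * (h * (sx x * el x)) by ring,
          show sx x * (h * (sx x * el x)) = sx x * (2 * Real.log (el x)) by rw [hhm],
          show el x * (2 * gx x) = 2 * (gx x * el x) by ring]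
      exact mul_left_cancel₀ hl0.ne' e4
    have e5 : Real.log 2 * h ≤ 1 := by
      have : 0 ≤ Real.log 2 := Real.log_nonneg (by norm_num)
      nlinarith
    rw [e1]
    nlinarith
  · intro a ha
    rw [Finset.mem_Ioc] at ha
    have ha2 : (2 : ℝ) ≤ a := by
      have h1 : 2 ≤ a := by omega
      exact_mod_cast h1
    constructor
    · exact Real.rpow_nonneg (by linarith) _
    · calc (a : ℝ) ^ (-(1 + h)) ≤ (a : ℝ) ^ (-1 : ℝ) :=
          Real.rpow_le_rpow_of_exponent_le (by linarith) (by linarith)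
        _ = (a : ℝ)⁻¹ := Real.rpow_neg_one _
        _ ≤ 2⁻¹ := by
          apply inv_anti₀ (by norm_num) ha2
        _ = 1 / 2 := by norm_num
  · intro m hm a ha
    rw [Finset.mem_Ioc]
    constructor
    · rw [Nat.floor_lt (by linarith)]
      exact (hF m hm).1 a ha
    · have h1 : a ∣ m.prod := Multiset.dvd_prod ha
      have hpos : 0 < m.prod := by
        apply Nat.pos_of_ne_zero
        intro h0
        rw [Multiset.prod_eq_zero_iff] at h0
        have := (hF m hm).1 0 h0
        push_cast at this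
        linarith
      have h2 : a ≤ m.prod := Nat.le_of_dvd hpos h1
      apply Nat.le_floor
      exact (by exact_mod_cast h2 : (a : ℝ) ≤ (m.prod : ℝ)).trans (hF m hm).2

end Pool.Agent.H26.NOK
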